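import Pool.Agent.N979.CP.Stm

/-!
# Round caps are minimal fillings (PROJECT CPN2): an explicit radius in all dimensions (helper514)
-/

set_option autoImplicit false

open MeasureTheory Metric Set Filter Topology InnerProductGeometry Matrix

namespace Pool.Agent.N514.CPGC

open Pool.Agent.H241R3.FV Pool.Agent.N526.CP Pool.Agent.N979.CP

/-! ### Elementary inequalities -/

lemma tangent {w r : ℝ} (hw : 0 < w) (hr : 0 < r) :
    r⁻¹ - 1 / 2 * r⁻¹ ^ 3 * (w ^ 2 - r ^ 2) ≤ w⁻¹ := by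
  rw [← sub_nonneg]
  have h : w⁻¹ - (r⁻¹ - 1 / 2 * r⁻¹ ^ 3 * (w ^ 2 - r ^ 2)) =
      (w - r) ^ 2 * (w + 2 * r) / (2 * w * r ^ 3) := by
    field_simp
    ring
  rw [h]
  positivity

lemma young {v m : ℝ} (hv : 0 ≤ v) (hm : 0 ≤ m) (n : ℕ) :
    ((n : ℝ) + 2) * v ^ n * m ^ 2 ≤ n * v ^ (n + 2) + 2 * m ^ (n + 2) := by
  induction n with
  | zero => simp
  | succ n ih =>
    have h1 : 0 ≤ (v - m) * (v ^ (n + 1) * (v + m) - 2 * m ^ (n + 2)) := by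
      rcases le_total m v with h | h
      · refine mul_nonneg (sub_nonneg.2 h) ?_
        have h2 : m ^ (n + 1) ≤ v ^ (n + 1) := pow_le_pow_left₀ hm h _
        have h3 : m ^ (n + 1) * (2 * m) ≤ v ^ (n + 1) * (v + m) :=
          mul_le_mul h2 (by linarith) (by linarith) (by positivity)
        have h4 : m ^ (n + 2) = m ^ (n + 1) * m := pow_succ _ _
        rw [h4]
        linarith
      · refine mul_nonneg_of_nonpos_of_nonpos (sub_nonpos.2 h) ?_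
        have h2 : v ^ (n + 1) ≤ m ^ (n + 1) := pow_le_pow_left₀ hv h _
        have h3 : v ^ (n + 1) * (v + m) ≤ m ^ (n + 1) * (2 * m) :=
          mul_le_mul h2 (by linarith) (by linarith) (by positivity)
        have h4 : m ^ (n + 2) = m ^ (n + 1) * m := pow_succ _ _
        rw [h4]
        linarith
    have h5 := mul_le_mul_of_nonneg_left ih hv
    push_cast
    have e1 : ((n : ℝ) + 1) * v ^ (n + 1 + 2) + 2 * m ^ (n + 1 + 2) - ((n : ℝ) + 1 + 2) * v ^ (n + 1) * m ^ 2 =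
        v * (n * v ^ (n + 2) + 2 * m ^ (n + 2)) - v * (((n : ℝ) + 2) * v ^ n * m ^ 2) +
          (v - m) * (v ^ (n + 1) * (v + m) - 2 * m ^ (n + 2)) := by ring
    linarith

/-- comparison of `√(1 - x)` and `1 / √(1 + x)` -/
lemma sqrt_le {x : ℝ} (_h0 : 0 ≤ x) (h1 : x ≤ 1) : √(1 - x) ≤ (√(1 + x))⁻¹ := by
  have h2 : 0 < √(1 + x) := Real.sqrt_pos.2 (by linarith)
  rw [← one_div, le_div_iff₀ h2, ← Real.sqrt_mul (by linarith)]
  exact Real.sqrt_le_iff.2 ⟨by norm_num, by nlinarith⟩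

/-! ### Integrals -/

lemma coord {d : ℕ} (θ : Sph (d + 1)) : |(θ : E (d + 1)) 0| ≤ 1 := by
  have h1 := PiLp.norm_apply_le (θ : E (d + 1)) 0
  rw [norm_sph θ, Real.norm_eq_abs] at h1
  exact h1

lemma coord_sq {d : ℕ} (θ : Sph (d + 1)) : (θ : E (d + 1)) 0 ^ 2 ≤ 1 := by
  rw [sq_le_one_iff_abs_le_one]
  exact coord θ

lemma cont_coord {d : ℕ} : Continuous fun θ : Sph (d + 1) => (θ : E (d + 1)) 0 := by
  fun_prop

lemma integ {d : ℕ} [IsProbabilityMeasure (sg (d + 1))] {f : Sph (d + 1) → ℝ} (hf : Continuous f) :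
    Integrable f (sg (d + 1)) := by
  rw [← integrableOn_univ]
  exact hf.continuousOn.integrableOn_compact isCompact_univ

lemma sq_le {d : ℕ} {s : ℝ} (hs : 0 ≤ s) (θ : Sph (d + 1)) : (s * (θ : E (d + 1)) 0) ^ 2 ≤ s ^ 2 := by
  rw [mul_pow]
  have := coord_sq θ
  have h2 : 0 ≤ s ^ 2 := sq_nonneg s
  nlinarith

lemma cont_inv {d : ℕ} {s : ℝ} (hs : 0 ≤ s) (hs1 : s < 1) :
    Continuous fun θ : Sph (d + 1) => (√(1 - (s * (θ : E (d + 1)) 0) ^ 2))⁻¹ := by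
  have hc := @cont_coord d
  refine Continuous.inv₀ (by fun_prop) fun θ => ?_
  rw [Real.sqrt_ne_zero']
  have := sq_le hs θ
  nlinarith

lemma cont_v {d : ℕ} {s : ℝ} :
    Continuous fun θ : Sph (d + 1) => (√(1 + (s * (θ : E (d + 1)) 0) ^ 2))⁻¹ := by
  have hc := @cont_coord d
  refine Continuous.inv₀ (by fun_prop) fun θ => ?_
  rw [Real.sqrt_ne_zero']
  positivity

/-- Jensen's inequality for `1 / √y` -/
lemma lowerK {d : ℕ} [IsProbabilityMeasure (sg (d + 1))] {s : ℝ} (hs : 0 ≤ s) (hs1 : s < 1)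
    {g : Sph (d + 1) → ℝ} (hg : Continuous g) (hg0 : ∀ θ, 0 ≤ g θ) {I0 I1 r : ℝ}
    (h0 : ∫ θ, g θ ∂(sg (d + 1)) = I0) (h1 : ∫ θ, g θ * (θ : E (d + 1)) 0 ^ 2 ∂(sg (d + 1)) = I1)
    (hr : 0 < r) (hr2 : r ^ 2 * I0 = I0 - s ^ 2 * I1) :
    I0 / r ≤ ∫ θ, g θ * (√(1 - (s * (θ : E (d + 1)) 0) ^ 2))⁻¹ ∂(sg (d + 1)) := by
  have hc := @cont_coord d
  have hi := @cont_inv d s hs hs1
  have hcg : Continuous fun θ : Sph (d + 1) => g θ * (θ : E (d + 1)) 0 ^ 2 := by fun_prop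
  obtain ⟨A, hA⟩ : ∃ A : ℝ, A = r⁻¹ - 1 / 2 * r⁻¹ ^ 3 * (1 - r ^ 2) := ⟨_, rfl⟩
  obtain ⟨B, hB⟩ : ∃ B : ℝ, B = 1 / 2 * r⁻¹ ^ 3 * s ^ 2 := ⟨_, rfl⟩
  have hint : ∫ θ, (A * g θ + B * (g θ * (θ : E (d + 1)) 0 ^ 2)) ∂(sg (d + 1)) = I0 / r := by
    rw [integral_add ((integ hg).const_mul A) ((integ hcg).const_mul B), integral_const_mul,
      integral_const_mul, h0, h1, hA, hB]
    have h2 : (r⁻¹ - 1 / 2 * r⁻¹ ^ 3 * (1 - r ^ 2)) * I0 + 1 / 2 * r⁻¹ ^ 3 * s ^ 2 * I1 =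
        r⁻¹ * I0 - 1 / 2 * r⁻¹ ^ 3 * (I0 - s ^ 2 * I1 - r ^ 2 * I0) := by ring
    rw [h2, ← hr2, sub_self, mul_zero, sub_zero]
    rw [div_eq_mul_inv, mul_comm]
  rw [← hint]
  refine integral_mono (((integ hg).const_mul A).add ((integ hcg).const_mul B))
    (integ (hg.mul hi)) fun θ => ?_
  have hpos : 0 < 1 - (s * (θ : E (d + 1)) 0) ^ 2 := by
    have := sq_le hs θ
    nlinarith
  have h3 := tangent (Real.sqrt_pos.2 hpos) hr
  rw [Real.sq_sqrt hpos.le] at h3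
  have h4 := mul_le_mul_of_nonneg_left h3 (hg0 θ)
  refine le_trans (le_of_eq ?_) h4
  simp only [hA, hB]
  ring

/-- Jensen's inequality for `t ^ (n / (n + 2))` -/
lemma upperK {d : ℕ} [IsProbabilityMeasure (sg (d + 1))] {s : ℝ} (hs : 0 ≤ s) (hs1 : s < 1)
    {g : Sph (d + 1) → ℝ} (hg : Continuous g) (hg0 : ∀ θ, 0 ≤ g θ) {I0 m : ℝ} (hm : 0 < m)
    (h0 : ∫ θ, g θ ∂(sg (d + 1)) = I0)
    (h1 : ∫ θ, g θ * ((√(1 + (s * (θ : E (d + 1)) 0) ^ 2))⁻¹) ^ (d + 3) ∂(sg (d + 1)) =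
      I0 * m ^ (d + 3)) :
    ∫ θ, g θ * √(1 - (s * (θ : E (d + 1)) 0) ^ 2) ^ (d + 1) ∂(sg (d + 1)) ≤ I0 * m ^ (d + 1) := by
  have hc := @cont_coord d
  have hv := @cont_v d s
  have hcv : Continuous fun θ : Sph (d + 1) =>
      g θ * ((√(1 + (s * (θ : E (d + 1)) 0) ^ 2))⁻¹) ^ (d + 3) := hg.mul (hv.pow _)
  obtain ⟨A, hA⟩ : ∃ A : ℝ, A = (d + 1) / (d + 3) / m ^ 2 := ⟨_, rfl⟩
  obtain ⟨B, hB⟩ : ∃ B : ℝ, B = 2 / (d + 3) * m ^ (d + 1) := ⟨_, rfl⟩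
  have hd : (0 : ℝ) < d + 3 := by positivity
  have hint : ∫ θ, (A * (g θ * ((√(1 + (s * (θ : E (d + 1)) 0) ^ 2))⁻¹) ^ (d + 3)) + B * g θ)
      ∂(sg (d + 1)) = I0 * m ^ (d + 1) := by
    rw [integral_add ((integ hcv).const_mul A) ((integ hg).const_mul B), integral_const_mul,
      integral_const_mul, h0, h1, hA, hB]
    have h2 : m ^ (d + 3) = m ^ (d + 1) * m ^ 2 := by rw [← pow_add]
    rw [h2]
    field_simp
    ring
  rw [← hint]
  refine integral_mono (integ (hg.mul (by fun_prop)))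
    (((integ hcv).const_mul A).add ((integ hg).const_mul B)) fun θ => ?_
  have hx0 : 0 ≤ (s * (θ : E (d + 1)) 0) ^ 2 := sq_nonneg _
  have hx1 : (s * (θ : E (d + 1)) 0) ^ 2 ≤ 1 := (sq_le hs θ).trans (by nlinarith)
  have h3 := pow_le_pow_left₀ (Real.sqrt_nonneg _) (sqrt_le hx0 hx1) (d + 1)
  obtain ⟨v, hv'⟩ : ∃ v : ℝ, v = (√(1 + (s * (θ : E (d + 1)) 0) ^ 2))⁻¹ := ⟨_, rfl⟩
  have hv0 : 0 ≤ v := by rw [hv']; positivity
  rw [← hv'] at h3
  have h4 := young hv0 hm.le (d + 1)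
  push_cast at h4
  have h5 : v ^ (d + 1) ≤ A * v ^ (d + 3) + B := by
    rw [hA, hB]
    have e1 : (d + 1 : ℝ) / (d + 3) / m ^ 2 * v ^ (d + 3) + 2 / (d + 3) * m ^ (d + 1) =
        ((d + 1) * v ^ (d + 3) + 2 * m ^ (d + 3)) / ((d + 3) * m ^ 2) := by
      have h2 : m ^ (d + 3) = m ^ (d + 1) * m ^ 2 := by rw [← pow_add]
      rw [h2]
      field_simp
    rw [e1, le_div_iff₀ (by positivity)]
    have e2 : v ^ (d + 1) * ((d + 3) * m ^ 2) = ((d : ℝ) + 1 + 2) * v ^ (d + 1) * m ^ 2 := by ring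
    rw [e2]
    exact h4
  have h6 := mul_le_mul_of_nonneg_left (h3.trans h5) (hg0 θ)
  refine h6.trans (le_of_eq ?_)
  simp only [hv']
  ring

/-- a lower bound -/
lemma posK {d : ℕ} [IsProbabilityMeasure (sg (d + 1))] {s : ℝ} (hs : 0 ≤ s) (hs1 : s < 1)
    {g : Sph (d + 1) → ℝ} (hg : Continuous g) (hg0 : ∀ θ, 0 ≤ g θ) {I0 : ℝ}
    (h0 : ∫ θ, g θ ∂(sg (d + 1)) = I0) :
    I0 * √(1 - s ^ 2) ^ (d + 1) ≤
      ∫ θ, g θ * √(1 - (s * (θ : E (d + 1)) 0) ^ 2) ^ (d + 1) ∂(sg (d + 1)) := by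
  have hc := @cont_coord d
  rw [← h0, ← integral_mul_const]
  refine integral_mono ((integ hg).mul_const _) (integ (hg.mul (by fun_prop))) fun θ => ?_
  refine mul_le_mul_of_nonneg_left ?_ (hg0 θ)
  refine pow_le_pow_left₀ (Real.sqrt_nonneg _) (Real.sqrt_le_sqrt ?_) _
  have := sq_le hs θ
  linarith

/-- existence of roots -/
lemma root {y : ℝ} (hy : 0 < y) {n : ℕ} (hn : n ≠ 0) : ∃ m : ℝ, 0 < m ∧ m ^ n = y :=
  ⟨y ^ ((n : ℝ)⁻¹), Real.rpow_pos_of_pos hy _, Real.rpow_inv_natCast_pow hy.le hn⟩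

/-- Bernoulli's inequality, in the form which is needed -/
lemma bern {x k : ℝ} {n : ℕ} (hn : 0 < n) (hx : 0 ≤ x) (hk : 0 < k) (hkx : k * x ≤ n) {m : ℝ}
    (hm : 0 < m) {l : ℕ} (hl : (l : ℝ) = k) (hml : (m ^ 2) ^ n = ((1 + x) ^ l)⁻¹) :
    1 - k * x / n ≤ m ^ 2 ∧ (0 < x → 1 - k * x / n < m ^ 2) := by
  have h1 : (1 - k * x / n) ^ n ≤ Real.exp (-(k * x)) := Real.one_sub_div_pow_le_exp_neg hkx
  have hn' : (0 : ℝ) < n := by exact_mod_cast hn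
  have h0 : 0 ≤ 1 - k * x / n := by
    rw [sub_nonneg, div_le_one hn']
    exact hkx
  have hl0 : l ≠ 0 := by
    rintro rfl
    simp at hl
    linarith
  have h2 : (1 + x) ^ l ≤ Real.exp (k * x) := by
    rw [← hl, Real.exp_nat_mul]
    refine pow_le_pow_left₀ (by linarith) ?_ _
    have := Real.add_one_le_exp x
    linarith
  have h2' : 0 < x → (1 + x) ^ l < Real.exp (k * x) := by
    intro hx'
    rw [← hl, Real.exp_nat_mul]
    refine pow_lt_pow_left₀ ?_ (by linarith) hl0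
    have := Real.add_one_lt_exp hx'.ne'
    linarith
  have h3 : 0 < (1 + x) ^ l := by positivity
  constructor
  · by_contra hcon
    push Not at hcon
    have h4 := pow_lt_pow_left₀ hcon (by positivity) hn.ne'
    rw [hml] at h4
    have h5 := h4.trans_le h1
    rw [Real.exp_neg] at h5
    have h6 := (inv_lt_inv₀ h3 (Real.exp_pos _)).1 h5
    linarith
  · intro hx'
    by_contra hcon
    push Not at hcon
    have h4 := pow_le_pow_left₀ (by positivity) hcon n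
    rw [hml] at h4
    have h5 := h4.trans h1
    rw [Real.exp_neg] at h5
    have h6 := (inv_le_inv₀ h3 (Real.exp_pos _)).1 h5
    have := h2' hx'
    linarith

/-- the quotient -/
lemma quot {n c k a r m S : ℝ} (hn : 0 < n) (hc : 0 ≤ c) (hr : 0 < r) (ha : 0 < a)
    (hk : 1 / (n * r) ≤ k) {p : ℕ} (hm : 0 < m) (ham : a ≤ m ^ p / n) (hS : 0 < S)
    (hmS : m ^ (p + 2) = S⁻¹) : c * S * (m ^ 2 / r ^ 2) ≤ n * c * k ^ 2 / a := by
  have h1 : (1 / (n * r)) ^ 2 ≤ k ^ 2 := pow_le_pow_left₀ (by positivity) hk 2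
  calc c * S * (m ^ 2 / r ^ 2) = n * c * (1 / (n * r)) ^ 2 / (m ^ p / n) := by
        have h2 : S = (m ^ p * m ^ 2)⁻¹ := by
          rw [← pow_add, hmS, inv_inv]
        rw [h2]
        field_simp
    _ ≤ n * c * k ^ 2 / (m ^ p / n) := by gcongr
    _ ≤ n * c * k ^ 2 / a := by
        gcongr

theorem main (hS : S_SPH) (hM : S_MOM) (hF : S_FN) (hX : S_GX) : S_GC := by
  intro d hd s hs0 hs1 hq
  refine ⟨hs0, hs1, fun σ hσ => ?_⟩
  have hσ0 : 0 ≤ σ := hσ.1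
  have hσ1 : σ < 1 := hσ.2.trans_lt hs1
  refine hX d hd σ hσ0 hσ1 ?_
  have := (hS d hd).1
  obtain ⟨hm2, hm4, -⟩ := hM d hd
  obtain ⟨hf1, hf2⟩ := hF d hd σ
  have hd0 : (0 : ℝ) < d := by exact_mod_cast hd
  have hd1 : (1 : ℝ) ≤ d := by exact_mod_cast hd
  have hc := @cont_coord d
  have hx0 : 0 ≤ σ ^ 2 := sq_nonneg σ
  have hx1 : σ ^ 2 < 1 := by nlinarith
  obtain ⟨S, hSd⟩ : ∃ S : ℝ, S = √(1 + σ ^ 2) := ⟨_, rfl⟩
  have hS0 : 0 < S := by rw [hSd]; exact Real.sqrt_pos.2 (by linarith)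
  have hS2 : S ^ 2 = 1 + σ ^ 2 := by rw [hSd]; exact Real.sq_sqrt (by linarith)
  obtain ⟨c, hcd⟩ : ∃ c : ℝ, c = √(1 - σ ^ 2) := ⟨_, rfl⟩
  have hc0 : 0 < c := by rw [hcd]; exact Real.sqrt_pos.2 (by linarith)
  -- the roots
  obtain ⟨m, hm0, hm⟩ := root (y := (S ^ 3)⁻¹) (by positivity) (n := d + 3) (by omega)
  obtain ⟨m', hm'0, hm'⟩ := root (y := S⁻¹) (by positivity) (n := d + 3) (by omega)
  obtain ⟨r, hrd⟩ : ∃ r : ℝ, r = √(1 - 3 * σ ^ 2 / ((d + 3 : ℕ) : ℝ)) := ⟨_, rfl⟩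
  obtain ⟨r', hr'd⟩ : ∃ r' : ℝ, r' = √(1 - 1 * σ ^ 2 / ((d + 3 : ℕ) : ℝ)) := ⟨_, rfl⟩
  have hN : (((d + 3 : ℕ) : ℝ)) = d + 3 := by push_cast; ring
  have hrp : 0 < 1 - 3 * σ ^ 2 / ((d + 3 : ℕ) : ℝ) := by
    rw [hN, sub_pos, div_lt_one (by positivity)]
    linarith
  have hr'p : 0 < 1 - 1 * σ ^ 2 / ((d + 3 : ℕ) : ℝ) := by
    rw [hN, sub_pos, div_lt_one (by positivity)]
    linarith
  have hr0 : 0 < r := by rw [hrd]; exact Real.sqrt_pos.2 hrp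
  have hr'0 : 0 < r' := by rw [hr'd]; exact Real.sqrt_pos.2 hr'p
  have hr2 : r ^ 2 = 1 - 3 * σ ^ 2 / ((d + 3 : ℕ) : ℝ) := by rw [hrd]; exact Real.sq_sqrt hrp.le
  have hr'2 : r' ^ 2 = 1 - 1 * σ ^ 2 / ((d + 3 : ℕ) : ℝ) := by
    rw [hr'd]; exact Real.sq_sqrt hr'p.le
  have hb1 : r ^ 2 ≤ m ^ 2 := by
    rw [hr2]
    refine (bern (n := d + 3) (by omega) hx0 (by norm_num) (by rw [hN]; linarith) hm0
      (l := 3) (by norm_num) ?_).1
    rw [← pow_mul, mul_comm, pow_mul, hm, ← hS2]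
    rw [inv_pow]
    congr 1
    ring
  have hb2 : r' ^ 2 ≤ m' ^ 2 ∧ (0 < σ ^ 2 → r' ^ 2 < m' ^ 2) := by
    rw [hr'2]
    refine bern (n := d + 3) (by omega) hx0 (by norm_num) (by rw [hN]; linarith) hm'0
      (l := 1) (by norm_num) ?_
    rw [← pow_mul, mul_comm, pow_mul, hm', pow_one, ← hS2]
    rw [inv_pow]
  -- the integrals
  have hg1 : Continuous fun θ : Sph (d + 1) => (θ : E (d + 1)) 0 ^ 2 := by fun_prop
  have hg2 : Continuous fun θ : Sph (d + 1) => (1 : ℝ) - (θ : E (d + 1)) 0 ^ 2 := by fun_prop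
  have hg10 : ∀ θ : Sph (d + 1), 0 ≤ (θ : E (d + 1)) 0 ^ 2 := fun θ => sq_nonneg _
  have hg20 : ∀ θ : Sph (d + 1), 0 ≤ (1 : ℝ) - (θ : E (d + 1)) 0 ^ 2 := fun θ => by
    have := coord_sq θ
    linarith
  have hI1 : ∫ θ : Sph (d + 1), (θ : E (d + 1)) 0 ^ 2 * (θ : E (d + 1)) 0 ^ 2 ∂(sg (d + 1)) =
      3 / ((d + 1 : ℝ) * (d + 3)) := by
    rw [← hm4]
    refine integral_congr_ae (Eventually.of_forall fun θ => ?_)
    ring
  have hJ0 : ∫ θ : Sph (d + 1), ((1 : ℝ) - (θ : E (d + 1)) 0 ^ 2) ∂(sg (d + 1)) =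
      (d : ℝ) / (d + 1) := by
    rw [integral_sub (integrable_const _) (integ hg1), hm2]
    simp only [integral_const, probReal_univ, smul_eq_mul, mul_one]
    field_simp
    ring
  have hJ1 : ∫ θ : Sph (d + 1), ((1 : ℝ) - (θ : E (d + 1)) 0 ^ 2) * (θ : E (d + 1)) 0 ^ 2
      ∂(sg (d + 1)) = (d : ℝ) / ((d + 1) * (d + 3)) := by
    have h1 : ∫ θ : Sph (d + 1), ((1 : ℝ) - (θ : E (d + 1)) 0 ^ 2) * (θ : E (d + 1)) 0 ^ 2
        ∂(sg (d + 1)) =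
        ∫ θ : Sph (d + 1), ((θ : E (d + 1)) 0 ^ 2 - (θ : E (d + 1)) 0 ^ 4) ∂(sg (d + 1)) := by
      refine integral_congr_ae (Eventually.of_forall fun θ => ?_)
      ring
    rw [h1, integral_sub (integ hg1) (integ (by fun_prop)), hm2, hm4]
    field_simp
    ring
  have k1 : 1 / (((d : ℝ) + 1) * r) ≤ kr d σ := by
    have h1 := lowerK hσ0 hσ1 hg1 hg10 hm2 hI1 hr0 (by
      rw [hr2, hN]
      field_simp)
    unfold kr
    refine le_trans (le_of_eq ?_) h1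
    field_simp
  have k2 : 1 / (((d : ℝ) + 1) * r') ≤ kt d σ := by
    have h1 := lowerK hσ0 hσ1 hg2 hg20 hJ0 hJ1 hr'0 (by
      rw [hr'2, hN]
      field_simp)
    unfold kt
    rw [le_div_iff₀ hd0]
    refine le_trans (le_of_eq ?_) h1
    field_simp
  have a1 : Ar d σ ≤ m ^ (d + 1) / (d + 1) := by
    have h1 := upperK hσ0 hσ1 hg1 hg10 hm0 hm2 (by
      rw [hf1, hm, ← hSd]
      rw [mul_inv, one_div])
    unfold Ar
    refine h1.trans (le_of_eq ?_)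
    ring
  have a2 : At d σ ≤ m' ^ (d + 1) / (d + 1) := by
    have h1 := upperK hσ0 hσ1 hg2 hg20 hm'0 hJ0 (by
      rw [hf2, hm', ← hSd]
      rw [mul_inv, div_eq_mul_inv]
      ring)
    unfold At
    rw [div_le_iff₀ hd0]
    refine h1.trans (le_of_eq ?_)
    ring
  have p1 : 0 < Ar d σ := by
    have h1 := posK hσ0 hσ1 hg1 hg10 hm2
    rw [← hcd] at h1
    unfold Ar
    exact lt_of_lt_of_le (by positivity) h1
  have p2 : 0 < At d σ := by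
    have h1 := posK hσ0 hσ1 hg2 hg20 hJ0
    rw [← hcd] at h1
    unfold At
    refine div_pos (lt_of_lt_of_le ?_ h1) hd0
    positivity
  -- the two terms
  have t1 := quot (n := (d : ℝ) + 1) (c := c ^ 3) (by positivity) (by positivity) hr0 p1 k1 hm0 a1
    (S := S ^ 3) (by positivity) hm
  have t2 := quot (n := (d : ℝ) + 1) (c := c) (by positivity) hc0.le hr'0 p2 k2 hm'0 a2
    (S := S) hS0 hm'
  rw [← hcd]
  -- the function `q`
  obtain ⟨q, hqd⟩ : ∃ q : ℝ, q = c * S := ⟨_, rfl⟩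
  have hq0 : 0 < q := by rw [hqd]; positivity
  have hqs : q = √(1 - σ ^ 4) := by
    rw [hqd, hcd, hSd, ← Real.sqrt_mul (by linarith)]
    congr 1
    ring
  have hqq : √(1 - s ^ 4) ≤ q := by
    rw [hqs]
    refine Real.sqrt_le_sqrt ?_
    have := pow_le_pow_left₀ hσ0 hσ.2 4
    linarith
  have hfin : (d : ℝ) ≤ q ^ 3 + d * q := by
    refine hq.trans ?_
    have h1 := pow_le_pow_left₀ (Real.sqrt_nonneg _) hqq 3
    have h2 := mul_le_mul_of_nonneg_left hqq hd0.le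
    linarith
  have s1 : q ^ 3 ≤ (d + 1) * c ^ 3 * kr d σ ^ 2 / Ar d σ := by
    refine le_trans ?_ t1
    have h1 : 1 ≤ m ^ 2 / r ^ 2 := by rwa [le_div_iff₀ (by positivity), one_mul]
    calc q ^ 3 = c ^ 3 * S ^ 3 * 1 := by rw [hqd]; ring
      _ ≤ _ := by gcongr
  have s2 : q ≤ (d + 1) * c * kt d σ ^ 2 / At d σ := by
    refine le_trans ?_ t2
    have h1 : 1 ≤ m' ^ 2 / r' ^ 2 := by rw [le_div_iff₀ (by positivity), one_mul]; exact hb2.1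
    calc q = c * S * 1 := by rw [hqd]; ring
      _ ≤ _ := by gcongr
  rcases hσ0.eq_or_lt with h0 | h0
  · have hq1 : q = 1 := by rw [hqs, ← h0]; simp
    rw [hq1] at s1 s2
    have h2 := mul_le_mul_of_nonneg_left s2 hd0.le
    rw [one_pow] at s1
    linarith
  · have s3 : q < (d + 1) * c * kt d σ ^ 2 / At d σ := by
      refine lt_of_lt_of_le ?_ t2
      have h1 : 1 < m' ^ 2 / r' ^ 2 := by
        rw [lt_div_iff₀ (by positivity), one_mul]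
        exact hb2.2 (by positivity)
      calc q = c * S * 1 := by rw [hqd]; ring
        _ < _ := by gcongr
    have h2 := mul_lt_mul_of_pos_left s3 hd0
    linarith

end Pool.Agent.N514.CPGC
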