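import Mathlib

/-!
# Project TC: choice of the set `T`
-/

set_option autoImplicit false

namespace Pool.Agent.N514.TCSEL

open Finset

theorem sel_comp {V : Type} [Fintype V] (S U : Set V) (hU : U ⊆ S) :
    ∃ T Z : Set V, T ⊆ S ∧ Z ⊆ S ∧ Even T.ncard ∧ (∀ v ∈ U, v ∈ T ∨ v ∈ Z) ∧ (∀ z ∈ Z, z ∉ T) ∧
      Z.Subsingleton ∧ ∀ z ∈ Z, Odd S.ncard ∧ ∀ v ∈ S, v ∈ U := by
  classical
  rcases Nat.even_or_odd U.ncard with he | ho
  · exact ⟨U, ∅, hU, Set.empty_subset _, he, fun v hv => Or.inl hv, fun z hz => absurd hz (Set.notMem_empty z),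
      Set.subsingleton_empty, fun z hz => absurd hz (Set.notMem_empty z)⟩
  · by_cases hw : ∃ w ∈ S, w ∉ U
    · obtain ⟨w, hwS, hwU⟩ := hw
      refine ⟨insert w U, ∅, Set.insert_subset hwS hU, Set.empty_subset _, ?_,
        fun v hv => Or.inl (Set.mem_insert_of_mem _ hv), fun z hz => absurd hz (Set.notMem_empty z),
        Set.subsingleton_empty, fun z hz => absurd hz (Set.notMem_empty z)⟩
      rw [Set.ncard_insert_of_notMem hwU (Set.toFinite _)]
      exact ho.add_one
    · push Not at hw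
      have hSU : U = S := Set.Subset.antisymm hU hw
      have hne : S.Nonempty := by
        rw [← hSU]
        apply Set.nonempty_of_ncard_ne_zero
        intro h0
        rw [h0] at ho
        exact absurd ho (by decide)
      obtain ⟨z, hz⟩ := hne
      refine ⟨S \ {z}, {z}, Set.diff_subset, Set.singleton_subset_iff.2 hz, ?_, ?_, ?_,
        Set.subsingleton_singleton, ?_⟩
      · have h1 := Set.ncard_diff_singleton_add_one hz (Set.toFinite _)
        rw [hSU] at ho
        rw [← h1] at ho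
        by_contra h2
        rw [Nat.not_even_iff_odd] at h2
        exact absurd ho (Nat.not_odd_iff_even.2 h2.add_one)
      · intro v hv
        by_cases hvz : v = z
        · exact Or.inr hvz
        · exact Or.inl ⟨hU hv, hvz⟩
      · intro w hw1 hw2
        exact hw2.2 hw1
      · intro w _
        rw [hSU] at ho
        exact ⟨ho, hw⟩

/-- The set `T`. -/
theorem sel {V : Type} [Fintype V] (H : SimpleGraph V) (d : ℕ)
    (hH : ∀ v, (H.neighborSet v).ncard ≤ d) :
    ∃ T Z : Set V, (∀ C : H.ConnectedComponent, Even (T ∩ C.supp).ncard) ∧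
      (∀ v, (H.neighborSet v).ncard = d → v ∈ T ∨ v ∈ Z) ∧ (∀ z ∈ Z, z ∉ T) ∧
      (∀ z ∈ Z, ∀ z' ∈ Z, H.Reachable z z' → z = z') ∧
      ∀ z ∈ Z, Odd (H.connectedComponentMk z).supp.ncard ∧
        ∀ v ∈ (H.connectedComponentMk z).supp, (H.neighborSet v).ncard = d := by
  have key : ∀ C : H.ConnectedComponent, ∃ T Z : Set V, T ⊆ C.supp ∧ Z ⊆ C.supp ∧ Even T.ncard ∧
      (∀ v ∈ {v | v ∈ C.supp ∧ (H.neighborSet v).ncard = d}, v ∈ T ∨ v ∈ Z) ∧ (∀ z ∈ Z, z ∉ T) ∧
      Z.Subsingleton ∧ ∀ z ∈ Z, Odd C.supp.ncard ∧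
        ∀ v ∈ C.supp, v ∈ {v | v ∈ C.supp ∧ (H.neighborSet v).ncard = d} := fun C =>
    sel_comp C.supp {v | v ∈ C.supp ∧ (H.neighborSet v).ncard = d} fun v hv => hv.1
  choose T Z h1 h2 h3 h4 h5 h6 h7 using key
  have hmem : ∀ v : V, v ∈ (H.connectedComponentMk v).supp := fun v => rfl
  refine ⟨{v | v ∈ T (H.connectedComponentMk v)}, {v | v ∈ Z (H.connectedComponentMk v)}, ?_, ?_, ?_,
    ?_, ?_⟩
  · intro C
    have hE : {v | v ∈ T (H.connectedComponentMk v)} ∩ C.supp = T C := by
      ext v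
      constructor
      · rintro ⟨hv1, hv2⟩
        have hv3 : H.connectedComponentMk v = C := hv2
        have hv4 : v ∈ T (H.connectedComponentMk v) := hv1
        rwa [hv3] at hv4
      · intro hv
        have hv2 : v ∈ C.supp := h1 C hv
        have hv3 : H.connectedComponentMk v = C := hv2
        refine ⟨?_, hv2⟩
        show v ∈ T (H.connectedComponentMk v)
        rw [hv3]
        exact hv
    rw [hE]
    exact h3 C
  · intro v hv
    exact h4 (H.connectedComponentMk v) v ⟨hmem v, hv⟩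
  · intro z hz
    exact h5 (H.connectedComponentMk z) z hz
  · intro z hz z' hz' hr
    have hC : H.connectedComponentMk z = H.connectedComponentMk z' := SimpleGraph.ConnectedComponent.sound hr
    have hz1 : z ∈ Z (H.connectedComponentMk z) := hz
    have hz2 : z' ∈ Z (H.connectedComponentMk z') := hz'
    rw [← hC] at hz2
    exact h6 _ hz1 hz2
  · intro z hz
    have h := h7 (H.connectedComponentMk z) z hz
    exact ⟨h.1, fun v hv => (h.2 v hv).2⟩

end Pool.Agent.N514.TCSEL
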