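import Pool.Agent.N604.MW.Stm7

/-! # Project KW, part WPARAM: choice of the parameters -/

set_option autoImplicit false

namespace Pool.Agent.N514.KW

open Pool.Agent.N604.MW

theorem pow_bound (r : ℕ) (hr : 5 ≤ r) : 32 * (r + 2) ^ 3 * 2 ^ r ≤ 2 ^ (4 * r) := by
  have h : 32 * (r + 2) ^ 3 ≤ 8 ^ r := by
    induction r, hr using Nat.le_induction with
    | base => norm_num
    | succ n hn ih =>
      have h1 : n + 1 + 2 ≤ 2 * (n + 2) := by omega
      have h2 := Nat.pow_le_pow_left h1 3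
      have h3 : (2 * (n + 2)) ^ 3 = 8 * (n + 2) ^ 3 := by ring
      rw [h3] at h2
      have h4 : 8 ^ (n + 1) = 8 * 8 ^ n := by ring
      rw [h4]
      omega
  calc 32 * (r + 2) ^ 3 * 2 ^ r ≤ 8 ^ r * 2 ^ r := Nat.mul_le_mul_right _ h
    _ = 2 ^ (4 * r) := by
        rw [← Nat.mul_pow, pow_mul]
        norm_num

theorem wparam : S_WPARAM := by
  refine ⟨64, by norm_num, 2 ^ 20, by norm_num, fun k s hk hs => ?_⟩
  have hk0 : k ≠ 0 := by
    have : (1 : ℕ) ≤ 2 ^ 20 := Nat.one_le_two_pow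
    omega
  set l := Nat.log 2 k with hl
  set r := l / 4 with hr
  have hl20 : 20 ≤ l := by
    rw [hl]
    exact (Nat.le_log_iff_pow_le (by norm_num) hk0).mpr hk
  have hr5 : 5 ≤ r := by omega
  have h4r : 4 * r ≤ l := by omega
  have hlt : l + 1 ≤ 4 * r + 4 := by omega
  have h1 : 2 ^ (4 * r) ≤ k := (Nat.pow_le_pow_right (by norm_num) h4r).trans
    (Nat.pow_log_le_self 2 hk0)
  have h2 : k < 2 ^ (4 * r + 4) := lt_of_lt_of_le (Nat.lt_pow_succ_log_self (by norm_num) k)
    (Nat.pow_le_pow_right (by norm_num) hlt)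
  have h3 := (pow_bound r hr5).trans h1
  -- real estimates
  have hkR : (1 : ℝ) < k := by
    have : 1 < k := by
      have : (1 : ℕ) < 2 ^ 20 := by norm_num
      omega
    exact_mod_cast this
  have hL0 : 0 < Real.log k := Real.log_pos hkR
  have hL1 : Real.log k ≤ (4 * r + 4) * Real.log 2 := by
    have h4 : (k : ℝ) ≤ 2 ^ (4 * r + 4) := by exact_mod_cast h2.le
    have h5 := Real.log_le_log (by linarith) h4
    rw [Real.log_pow] at h5
    push_cast at h5
    exact h5
  have hL2 : Real.log k ≤ 8 * r := by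
    have h4 := Real.log_two_lt_d9
    have h5 : (5 : ℝ) ≤ r := by exact_mod_cast hr5
    nlinarith
  have hLk : Real.log k ≤ k := by
    have := Real.log_le_sub_one_of_pos (show (0 : ℝ) < k by linarith)
    linarith
  have h6 : (64 : ℝ) ≤ 64 * k / Real.log k := by
    rw [le_div_iff₀ hL0]
    nlinarith
  have hs1 : (k : ℝ) + 64 ≤ s := by linarith
  have hs2 : k + 64 ≤ s := by exact_mod_cast hs1
  obtain ⟨s', rfl⟩ : ∃ s', s = s' + 1 := ⟨s - 1, by omega⟩
  refine ⟨r, s', rfl, by omega, ?_, by omega, ?_⟩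
  · have h7 : r < 2 ^ r := Nat.lt_two_pow_self
    have h8 : 2 ^ r * 1 ≤ 2 ^ r * (32 * (r + 2) ^ 3) := Nat.mul_le_mul_left _ (by
      have : 1 ≤ (r + 2) ^ 3 := Nat.one_le_pow _ _ (by omega)
      omega)
    have h9 : 8 * 2 ^ r ≤ 32 * (r + 2) ^ 3 * 2 ^ r := by
      apply Nat.mul_le_mul_right
      have : 1 ≤ (r + 2) ^ 3 := Nat.one_le_pow _ _ (by omega)
      omega
    omega
  · have h7 : (nr r - r) * (r + 1) ≤ 16 * (r + 2) ^ 3 * 2 ^ r := by
      have h8 : nr r - r ≤ 16 * (r * (r + 2)) * 2 ^ r := by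
        refine (Nat.sub_le _ _).trans (le_of_eq ?_)
        unfold nr
        ring
      calc (nr r - r) * (r + 1) ≤ (16 * (r * (r + 2)) * 2 ^ r) * (r + 1) :=
            Nat.mul_le_mul_right _ h8
        _ = 16 * (r * (r + 1) * (r + 2)) * 2 ^ r := by ring
        _ ≤ 16 * ((r + 2) * (r + 2) * (r + 2)) * 2 ^ r := by gcongr <;> omega
        _ = 16 * (r + 2) ^ 3 * 2 ^ r := by ring
    have h8 : 2 * ((nr r - r) * (r + 1)) ≤ k := by
      calc 2 * ((nr r - r) * (r + 1)) ≤ 2 * (16 * (r + 2) ^ 3 * 2 ^ r) := by omega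
        _ = 32 * (r + 2) ^ 3 * 2 ^ r := by ring
        _ ≤ k := h3
    have h9 : (r : ℝ) * k + 7 * k ≤ r * s' := by
      have h10 : (8 : ℝ) * k ≤ r * (64 * k / Real.log k) := by
        rw [mul_div_assoc', le_div_iff₀ hL0]
        have : (0 : ℝ) ≤ k := by linarith
        nlinarith
      have h11 : (k : ℝ) + 64 * k / Real.log k - 1 ≤ s' := by
        push_cast at hs
        linarith
      have hr0 : (0 : ℝ) ≤ r := by positivity
      have h12 := mul_le_mul_of_nonneg_left h11 hr0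
      have h13 : (r : ℝ) ≤ k := by
        have h14 : r ≤ k := by
          have h15 : r < 2 ^ (4 * r) := lt_of_lt_of_le Nat.lt_two_pow_self
            (Nat.pow_le_pow_right (by norm_num) (by omega))
          omega
        exact_mod_cast h14
      nlinarith
    have h10 : r * k + 7 * k ≤ r * s' := by exact_mod_cast h9
    have h11 : 64 ≤ k := by
      have : (64 : ℕ) ≤ 2 ^ 20 := by norm_num
      omega
    omega

end Pool.Agent.N514.KW
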